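import Pool.Agent.W560.EW.Stm

set_option autoImplicit false

open Polynomial

namespace Pool.Agent.W557.EW

open Pool.Agent.W560.EW

lemma aeval_real (p : ℝ[X]) (x : ℝ) :
    Polynomial.aeval ((x : ℝ) : ℂ) p = ((p.eval x : ℝ) : ℂ) := by
  have h := Polynomial.aeval_algebraMap_apply ℂ x p
  simpa using h

lemma main (n : ℕ) : ∀ p : ℝ[X], p.natDegree = n → p ≠ 0 →
    (∀ z : ℂ, Polynomial.aeval z p = 0 → z.im = 0 ∧ z.re ≤ 0) →
    ∃ M : ℝ → ℝ, (∀ x : ℝ, 0 < x → x * (derivative p).eval x = M x * p.eval x) ∧
      ∀ x y z : ℝ, 0 < x → x ≤ y → y ≤ z →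
        (M z - M y) * (y - x) ≤ (M y - M x) * (z - y) := by
  induction n with
  | zero =>
    intro p hp hp0 _
    refine ⟨fun _ => 0, ?_, ?_⟩
    · intro x _
      rw [Polynomial.eq_C_of_natDegree_eq_zero hp]
      simp
    · intro x y z _ _ _
      simp
  | succ n ih =>
    intro p hp hp0 hroot
    have hdeg : p.degree ≠ 0 := by
      intro h
      have h1 : p.natDegree = 0 := Polynomial.natDegree_eq_of_degree_eq_some h
      rw [hp] at h1
      exact absurd h1 (Nat.succ_ne_zero n)
    obtain ⟨z, hz⟩ := IsAlgClosed.exists_aeval_eq_zero ℂ p hdeg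
    obtain ⟨him, hre⟩ := hroot z hz
    have hzr : z = ((z.re : ℝ) : ℂ) := by
      apply Complex.ext
      · simp
      · simpa using him
    set r : ℝ := z.re with hr
    have hpr : p.eval r = 0 := by
      rw [hzr, aeval_real] at hz
      exact_mod_cast hz
    obtain ⟨q, hq⟩ := Polynomial.dvd_iff_isRoot.mpr hpr
    have hq0 : q ≠ 0 := by
      rintro rfl
      exact hp0 (by rw [hq, mul_zero])
    have hqn : q.natDegree = n := by
      have h1 := hp
      rw [hq, Polynomial.natDegree_mul (Polynomial.X_sub_C_ne_zero r) hq0,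
        Polynomial.natDegree_X_sub_C] at h1
      omega
    obtain ⟨M, hM1, hM2⟩ := ih q hqn hq0 (by
      intro w hw
      refine hroot w ?_
      rw [hq, map_mul, hw, mul_zero])
    refine ⟨fun x => x / (x - r) + M x, ?_, ?_⟩
    · intro x hx
      have hxr : x - r ≠ 0 := by
        have : 0 < x - r := by linarith
        exact ne_of_gt this
      have hd : derivative p = q + (X - C r) * derivative q := by
        rw [hq, Polynomial.derivative_mul]
        simp
      rw [hd, hq]
      simp only [Polynomial.eval_add, Polynomial.eval_mul, Polynomial.eval_sub,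
        Polynomial.eval_X, Polynomial.eval_C]
      have h2 := hM1 x hx
      calc x * (q.eval x + (x - r) * (derivative q).eval x)
          = x * q.eval x + (x - r) * (x * (derivative q).eval x) := by ring
        _ = x * q.eval x + (x - r) * (M x * q.eval x) := by rw [h2]
        _ = (x / (x - r) + M x) * ((x - r) * q.eval x) := by
            field_simp
    · intro x y w hx hxy hyw
      have h2 := hM2 x y w hx hxy hyw
      have a : 0 < x - r := by linarith
      have b : 0 < y - r := by linarith
      have c : 0 < w - r := by linarith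
      have e1 : w / (w - r) - y / (y - r) = (-r) * (w - y) / ((y - r) * (w - r)) := by
        field_simp
        ring
      have e2 : y / (y - r) - x / (x - r) = (-r) * (y - x) / ((x - r) * (y - r)) := by
        field_simp
        ring
      have h3 : (w / (w - r) - y / (y - r)) * (y - x) ≤ (y / (y - r) - x / (x - r)) * (w - y) := by
        rw [e1, e2, div_mul_eq_mul_div, div_mul_eq_mul_div]
        have hnum : 0 ≤ (-r) * (w - y) * (y - x) :=
          mul_nonneg (mul_nonneg (by linarith) (by linarith)) (by linarith)
        have e3 : (-r) * (y - x) * (w - y) = (-r) * (w - y) * (y - x) := by ring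
        rw [e3]
        apply div_le_div_of_nonneg_left hnum (by positivity)
        rw [mul_comm (x - r) (y - r)]
        exact mul_le_mul_of_nonneg_left (by linarith) b.le
      simp only
      nlinarith [h2, h3]

lemma eval_pos (p : ℝ[X]) (hp : p ≠ 0) (hc : ∀ k, 0 ≤ p.coeff k) (x : ℝ) (hx : 0 < x) :
    0 < p.eval x := by
  rw [Polynomial.eval_eq_sum_range]
  refine Finset.sum_pos' (fun i _ => mul_nonneg (hc i) (pow_nonneg hx.le i)) ?_
  refine ⟨p.natDegree, by simp, ?_⟩
  have h1 : p.coeff p.natDegree ≠ 0 := by
    rw [Polynomial.coeff_natDegree]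
    exact Polynomial.leadingCoeff_ne_zero.mpr hp
  exact mul_pos (lt_of_le_of_ne (hc _) (Ne.symm h1)) (pow_pos hx _)

theorem mean : S_MEAN := by
  intro p hp hc hRR
  refine main p.natDegree p rfl hp ?_
  intro z hz
  have him := hRR z hz
  refine ⟨him, ?_⟩
  by_contra hre
  push Not at hre
  have hzr : z = ((z.re : ℝ) : ℂ) := by
    apply Complex.ext
    · simp
    · simpa using him
  rw [hzr, aeval_real] at hz
  have : p.eval z.re = 0 := by exact_mod_cast hz
  exact absurd this (ne_of_gt (eval_pos p hp hc _ hre))

end Pool.Agent.W557.EW
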